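import Mathlib

/-!
# Exactly triply regular schemes that are not formally self-dual

The iterated wreath product of complete graph schemes `K_{s 0}, ..., K_{s (d-1)}` is exactly
triply regular.  It is not formally self-dual when `s 0 ≥ 3` and the last factor has size `2`.
-/

set_option linter.unusedSectionVars false

namespace Pool.Agent.Results.MP_44674b_co.WreathExact

open Finset

/-- A `d`-class symmetric association scheme on the finite set `X`.  The relation `R_i` is the set
of pairs `(x, y)` with `c x y = i`. -/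
structure SymScheme (X : Type) [Fintype X] [DecidableEq X] (d : ℕ) where
  /-- the colour of a pair -/
  c : X → X → Fin (d + 1)
  /-- every relation is nonempty -/
  surj : ∀ i, ∃ x y, c x y = i
  /-- `R_0` is the diagonal -/
  diag : ∀ x y, c x y = 0 ↔ x = y
  /-- every relation is symmetric -/
  symm : ∀ x y, c x y = c y x
  /-- the number of `z` with `(x,z) ∈ R_i`, `(z,y) ∈ R_j` depends only on the relation
  containing `(x,y)` -/
  regular : ∀ i j x y x' y', c x y = c x' y' →
    (univ.filter fun z => c x z = i ∧ c z y = j).card =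
      (univ.filter fun z => c x' z = i ∧ c z y' = j).card

section Defs

variable {X : Type} [Fintype X] [DecidableEq X] {d : ℕ}

/-- The `0/1` adjacency matrix of the relation `c = i`. -/
def adj (c : X → X → Fin (d + 1)) (i : Fin (d + 1)) : Matrix X X ℂ :=
  fun x y => if c x y = i then 1 else 0

/-- The span of the adjacency matrices (the Bose-Mesner algebra of a scheme). -/
def boseMesner (c : X → X → Fin (d + 1)) : Submodule ℂ (Matrix X X ℂ) :=
  Submodule.span ℂ (Set.range (adj c))

/-- The tensor `Δ(L, M, N)`; its coordinate at `x ⊗ y ⊗ z` is `L_{xz} M_{xy} N_{yz}`. -/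
def Delta (L M N : Matrix X X ℂ) : X → X → X → ℂ := fun x y z => L x z * M x y * N y z

/-- The tensor `Y(L, M, N)`; its coordinate at `x ⊗ y ⊗ z` is `∑_u L_{xu} M_{yu} N_{zu}`. -/
def Star (L M N : Matrix X X ℂ) : X → X → X → ℂ := fun x y z => ∑ u, L x u * M y u * N z u

/-- The space `W_Δ`. -/
def WDelta (c : X → X → Fin (d + 1)) : Submodule ℂ (X → X → X → ℂ) :=
  Submodule.span ℂ {T | ∃ L ∈ boseMesner c, ∃ M ∈ boseMesner c, ∃ N ∈ boseMesner c,
    T = Delta L M N}

/-- The space `W_Y`. -/
def WStar (c : X → X → Fin (d + 1)) : Submodule ℂ (X → X → X → ℂ) :=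
  Submodule.span ℂ {T | ∃ L ∈ boseMesner c, ∃ M ∈ boseMesner c, ∃ N ∈ boseMesner c,
    T = Star L M N}

/-- Triple regularity: the number of `u` in prescribed relations to `x`, `y`, `z` depends only on
the prescribed relations and on the relations between `x`, `y`, `z`. -/
def SymScheme.TriplyRegular (S : SymScheme X d) : Prop :=
  ∀ i j k x y z x' y' z', S.c x y = S.c x' y' → S.c x z = S.c x' z' → S.c y z = S.c y' z' →
    (univ.filter fun u => S.c x u = i ∧ S.c y u = j ∧ S.c z u = k).card =
      (univ.filter fun u => S.c x' u = i ∧ S.c y' u = j ∧ S.c z' u = k).card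

/-- Exact triple regularity: triple regularity (in its counting form and in the form
`W_Y ⊆ W_Δ`) together with dual triple regularity `W_Δ ⊆ W_Y`. -/
def SymScheme.ExactlyTriplyRegular (S : SymScheme X d) : Prop :=
  S.TriplyRegular ∧ WStar S.c ≤ WDelta S.c ∧ WDelta S.c ≤ WStar S.c

/-- `e` is a primitive idempotent of the Bose-Mesner algebra of `S`. -/
def SymScheme.IsPrimitiveIdempotent (S : SymScheme X d) (e : Matrix X X ℂ) : Prop :=
  e ∈ boseMesner S.c ∧ e * e = e ∧ e ≠ 0 ∧
    ∀ f ∈ boseMesner S.c, f * f = f → e * f = f → f = 0 ∨ f = e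

/-- Formal self-duality: the `A_i` and the primitive idempotents `E_j` (with `E_0 = |X|⁻¹ J`)
can be ordered so that the eigenmatrices `P` and `Q` are equal. -/
def SymScheme.FormallySelfDual (S : SymScheme X d) : Prop :=
  ∃ (σ : Equiv.Perm (Fin (d + 1))) (E : Fin (d + 1) → Matrix X X ℂ)
    (P Q : Matrix (Fin (d + 1)) (Fin (d + 1)) ℂ),
    Function.Injective E ∧ (∀ e, S.IsPrimitiveIdempotent e ↔ ∃ j, E j = e) ∧
    E 0 = (Fintype.card X : ℂ)⁻¹ • (fun _ _ => 1 : Matrix X X ℂ) ∧
    (∀ i, adj S.c (σ i) = ∑ j, P j i • E j) ∧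
    (∀ i, E i = (Fintype.card X : ℂ)⁻¹ • ∑ j, Q j i • adj S.c (σ j)) ∧
    P = Q

end Defs

section Ultra

variable {X : Type} [Fintype X] [DecidableEq X] {d : ℕ}

/-- the matrix of the relation `c ≤ i` -/
def ball (c : X → X → Fin (d + 1)) (i : Fin (d + 1)) : Matrix X X ℂ :=
  fun x y => if c x y ≤ i then 1 else 0

lemma ball_eq_sum (c : X → X → Fin (d + 1)) (i : Fin (d + 1)) :
    ball c i = ∑ j ∈ univ.filter (fun j => j ≤ i), adj c j := by
  ext x y
  rw [Matrix.sum_apply]
  simp only [ball, adj]
  rw [Finset.sum_ite_eq]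
  simp

lemma ball_mem (c : X → X → Fin (d + 1)) (i : Fin (d + 1)) : ball c i ∈ boseMesner c := by
  rw [ball_eq_sum]
  exact Submodule.sum_mem _ fun j _ => Submodule.subset_span ⟨j, rfl⟩

lemma adj_mem (c : X → X → Fin (d + 1)) (i : Fin (d + 1)) :
    adj c i ∈ Submodule.span ℂ (Set.range (ball c)) := by
  induction i using Fin.cases with
  | zero =>
    have : adj c 0 = ball c 0 := by
      ext x y
      simp [adj, ball]
    rw [this]
    exact Submodule.subset_span ⟨0, rfl⟩
  | succ i =>
    have : adj c i.succ = ball c i.succ - ball c i.castSucc := by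
      ext x y
      simp only [adj, ball, Matrix.sub_apply]
      rcases lt_trichotomy (c x y) i.succ with h | h | h
      · have h1 : c x y ≤ i.castSucc := Fin.le_castSucc_iff.mpr h
        rw [if_neg h.ne, if_pos h.le, if_pos h1, sub_self]
      · have h1 : ¬ c x y ≤ i.castSucc := by
          rw [h, not_le]; exact Fin.castSucc_lt_succ
        rw [if_pos h, if_pos h.le, if_neg h1, sub_zero]
      · have h1 : ¬ c x y ≤ i.castSucc := by
          rw [not_le]; exact lt_trans Fin.castSucc_lt_succ h
        rw [if_neg h.ne', if_neg (not_le.mpr h), if_neg h1, sub_zero]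
    rw [this]
    exact Submodule.sub_mem _ (Submodule.subset_span ⟨_, rfl⟩) (Submodule.subset_span ⟨_, rfl⟩)

lemma boseMesner_eq (c : X → X → Fin (d + 1)) :
    boseMesner c = Submodule.span ℂ (Set.range (ball c)) := by
  apply le_antisymm
  · rw [boseMesner, Submodule.span_le]
    rintro _ ⟨i, rfl⟩
    exact adj_mem c i
  · rw [Submodule.span_le]
    rintro _ ⟨i, rfl⟩
    exact ball_mem c i

/-- a trilinear map that maps generators into `W` maps the whole span into `W` -/
lemma tri_mem {U V : Type} [AddCommGroup U] [Module ℂ U] [AddCommGroup V] [Module ℂ V]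
    (T : U → U → U → V)
    (a1 : ∀ a a' b c, T (a + a') b c = T a b c + T a' b c)
    (s1 : ∀ (r : ℂ) a b c, T (r • a) b c = r • T a b c)
    (a2 : ∀ a b b' c, T a (b + b') c = T a b c + T a b' c)
    (s2 : ∀ (r : ℂ) a b c, T a (r • b) c = r • T a b c)
    (a3 : ∀ a b c c', T a b (c + c') = T a b c + T a b c')
    (s3 : ∀ (r : ℂ) a b c, T a b (r • c) = r • T a b c)
    (W : Submodule ℂ V) (s : Set U)
    (hs : ∀ a ∈ s, ∀ b ∈ s, ∀ c ∈ s, T a b c ∈ W) :
    ∀ a ∈ Submodule.span ℂ s, ∀ b ∈ Submodule.span ℂ s, ∀ c ∈ Submodule.span ℂ s,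
      T a b c ∈ W := by
  intro a ha b hb c hc
  have z1 : ∀ b c, T 0 b c = 0 := fun b c => by
    have := s1 0 0 b c; simpa using this
  have z2 : ∀ a c, T a 0 c = 0 := fun a c => by
    have := s2 0 a 0 c; simpa using this
  have z3 : ∀ a b, T a b 0 = 0 := fun a b => by
    have := s3 0 a b 0; simpa using this
  induction ha using Submodule.span_induction with
  | zero => rw [z1]; exact W.zero_mem
  | add x y _ _ hx hy => rw [a1]; exact W.add_mem hx hy
  | smul r x _ hx => rw [s1]; exact W.smul_mem r hx
  | mem a ha =>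
    induction hb using Submodule.span_induction with
    | zero => rw [z2]; exact W.zero_mem
    | add x y _ _ hx hy => rw [a2]; exact W.add_mem hx hy
    | smul r x _ hx => rw [s2]; exact W.smul_mem r hx
    | mem b hb =>
      induction hc using Submodule.span_induction with
      | zero => rw [z3]; exact W.zero_mem
      | add x y _ _ hx hy => rw [a3]; exact W.add_mem hx hy
      | smul r x _ hx => rw [s3]; exact W.smul_mem r hx
      | mem c hc => exact hs a ha b hb c hc

lemma delta_span (W : Submodule ℂ (X → X → X → ℂ)) (s : Set (Matrix X X ℂ))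
    (hs : ∀ a ∈ s, ∀ b ∈ s, ∀ c ∈ s, Delta a b c ∈ W) :
    ∀ a ∈ Submodule.span ℂ s, ∀ b ∈ Submodule.span ℂ s, ∀ c ∈ Submodule.span ℂ s,
      Delta a b c ∈ W := by
  apply tri_mem Delta <;> first | exact hs | skip
  · intro a a' b c; funext x y z; simp only [Delta, Matrix.add_apply, Pi.add_apply]; ring
  · intro r a b c; funext x y z
    simp only [Delta, Matrix.smul_apply, Pi.smul_apply, smul_eq_mul]; ring
  · intro a a' b c; funext x y z; simp only [Delta, Matrix.add_apply, Pi.add_apply]; ring
  · intro r a b c; funext x y z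
    simp only [Delta, Matrix.smul_apply, Pi.smul_apply, smul_eq_mul]; ring
  · intro a a' b c; funext x y z; simp only [Delta, Matrix.add_apply, Pi.add_apply]; ring
  · intro r a b c; funext x y z
    simp only [Delta, Matrix.smul_apply, Pi.smul_apply, smul_eq_mul]; ring

lemma star_span (W : Submodule ℂ (X → X → X → ℂ)) (s : Set (Matrix X X ℂ))
    (hs : ∀ a ∈ s, ∀ b ∈ s, ∀ c ∈ s, Star a b c ∈ W) :
    ∀ a ∈ Submodule.span ℂ s, ∀ b ∈ Submodule.span ℂ s, ∀ c ∈ Submodule.span ℂ s,
      Star a b c ∈ W := by
  apply tri_mem Star <;> first | exact hs | skip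
  · intro a a' b c; funext x y z
    simp only [Star, Matrix.add_apply, Pi.add_apply, ← Finset.sum_add_distrib]
    exact Finset.sum_congr rfl fun u _ => by ring
  · intro r a b c; funext x y z
    simp only [Star, Matrix.smul_apply, Pi.smul_apply, smul_eq_mul, Finset.mul_sum]
    exact Finset.sum_congr rfl fun u _ => by ring
  · intro a a' b c; funext x y z
    simp only [Star, Matrix.add_apply, Pi.add_apply, ← Finset.sum_add_distrib]
    exact Finset.sum_congr rfl fun u _ => by ring
  · intro r a b c; funext x y z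
    simp only [Star, Matrix.smul_apply, Pi.smul_apply, smul_eq_mul, Finset.mul_sum]
    exact Finset.sum_congr rfl fun u _ => by ring
  · intro a a' b c; funext x y z
    simp only [Star, Matrix.add_apply, Pi.add_apply, ← Finset.sum_add_distrib]
    exact Finset.sum_congr rfl fun u _ => by ring
  · intro r a b c; funext x y z
    simp only [Star, Matrix.smul_apply, Pi.smul_apply, smul_eq_mul, Finset.mul_sum]
    exact Finset.sum_congr rfl fun u _ => by ring

/-- elements of the Bose-Mesner algebra are constant on relations -/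
lemma boseMesner_const {c : X → X → Fin (d + 1)} {M : Matrix X X ℂ} (hM : M ∈ boseMesner c)
    {x y x' y' : X} (h : c x y = c x' y') : M x y = M x' y' := by
  induction hM using Submodule.span_induction with
  | zero => rfl
  | add a b _ _ ha hb => simp only [Matrix.add_apply, ha, hb]
  | smul r a _ ha => simp only [Matrix.smul_apply, ha]
  | mem a ha =>
    obtain ⟨i, rfl⟩ := ha
    simp only [adj, h]

/-- elements of `W_Δ` depend only on the three relations -/
lemma wdelta_const {c : X → X → Fin (d + 1)} {T : X → X → X → ℂ} (hT : T ∈ WDelta c)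
    {x y z x' y' z' : X} (h1 : c x y = c x' y') (h2 : c x z = c x' z') (h3 : c y z = c y' z') :
    T x y z = T x' y' z' := by
  induction hT using Submodule.span_induction with
  | zero => rfl
  | add a b _ _ ha hb => simp only [Pi.add_apply, ha, hb]
  | smul r a _ ha => simp only [Pi.smul_apply, ha]
  | mem a ha =>
    obtain ⟨L, hL, M, hM, N, hN, rfl⟩ := ha
    simp only [Delta]
    rw [boseMesner_const hL h2, boseMesner_const hM h1, boseMesner_const hN h3]

/-- The hypotheses on a homogeneous ultrametric colouring. -/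
structure Ultra (c : X → X → Fin (d + 1)) : Prop where
  diag : ∀ x y, c x y = 0 ↔ x = y
  symm : ∀ x y, c x y = c y x
  tri : ∀ x y z, c x z ≤ max (c x y) (c y z)
  hom : ∀ i x x', (univ.filter fun y => c x y ≤ i).card = (univ.filter fun y => c x' y ≤ i).card

lemma Ultra.le_of {c : X → X → Fin (d + 1)} (h : Ultra c) {x y z : X} {i : Fin (d + 1)}
    (h1 : c x y ≤ i) (h2 : c y z ≤ i) : c x z ≤ i :=
  (h.tri x y z).trans (max_le h1 h2)

lemma ball_zero {c : X → X → Fin (d + 1)} (h : Ultra c) : ball c 0 = 1 := by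
  ext x y
  simp only [ball, Matrix.one_apply, Fin.le_zero_iff, h.diag]

lemma ball_last (c : X → X → Fin (d + 1)) (x y : X) : ball c (Fin.last d) x y = 1 := by
  simp [ball, Fin.le_last]

lemma wdelta_le {c : X → X → Fin (d + 1)} (h : Ultra c) : WDelta c ≤ WStar c := by
  rw [WDelta, Submodule.span_le]
  rintro _ ⟨L, hL, M, hM, N, hN, rfl⟩
  rw [boseMesner_eq] at hL hM hN
  refine delta_span (WStar c) _ ?_ L hL M hM N hN
  rintro _ ⟨i, rfl⟩ _ ⟨j, rfl⟩ _ ⟨k, rfl⟩
  have key : ∀ a b e : Fin (d + 1), Star (ball c a) (ball c b) (ball c e) ∈ WStar c :=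
    fun a b e => Submodule.subset_span ⟨_, ball_mem c a, _, ball_mem c b, _, ball_mem c e, rfl⟩
  have hI := ball_zero h
  by_cases hk : i ≤ k ∧ j ≤ k
  · -- the condition on `y z` is implied
    have : Delta (ball c i) (ball c j) (ball c k) = Star (ball c 0) (ball c j) (ball c i) := by
      funext x y z
      simp only [Delta, Star]
      rw [hI]
      simp only [Matrix.one_apply, ite_mul, one_mul, zero_mul, Finset.sum_ite_eq, Finset.mem_univ,
        if_true]
      simp only [ball]
      rw [h.symm z x, h.symm y x]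
      by_cases h1 : c x z ≤ i
      · by_cases h2 : c x y ≤ j
        · have h3 : c y z ≤ k := by
            apply h.le_of (y := x)
            · rw [h.symm]; exact h2.trans hk.2
            · exact h1.trans hk.1
          simp [h1, h2, h3]
        · simp [h1, h2]
      · simp [h1]
    rw [this]; exact key _ _ _
  by_cases hi : j ≤ i ∧ k ≤ i
  · have : Delta (ball c i) (ball c j) (ball c k) = Star (ball c j) (ball c 0) (ball c k) := by
      funext x y z
      simp only [Delta, Star]
      rw [hI]
      simp only [Matrix.one_apply, mul_ite, ite_mul, mul_one, mul_zero, zero_mul,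
        Finset.sum_ite_eq, Finset.mem_univ, if_true]
      simp only [ball]
      rw [h.symm z y]
      by_cases h1 : c x y ≤ j
      · by_cases h2 : c y z ≤ k
        · have h3 : c x z ≤ i := h.le_of (h1.trans hi.1) (h2.trans hi.2)
          simp [h1, h2, h3]
        · simp [h1, h2]
      · simp [h1]
    rw [this]; exact key _ _ _
  have hj : i ≤ j ∧ k ≤ j := by
    rcases le_total i j with h1 | h1
    · refine ⟨h1, ?_⟩
      by_contra h2
      push Not at h2
      exact hk ⟨h1.trans h2.le, h2.le⟩
    · exfalso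
      rcases le_total i k with h2 | h2
      · exact hk ⟨h2, h1.trans h2⟩
      · exact hi ⟨h1, h2⟩
  have : Delta (ball c i) (ball c j) (ball c k) = Star (ball c i) (ball c k) (ball c 0) := by
    funext x y z
    simp only [Delta, Star]
    rw [hI]
    simp only [Matrix.one_apply, mul_ite, mul_one, mul_zero,
      Finset.sum_ite_eq, Finset.mem_univ, if_true]
    simp only [ball]
    by_cases h1 : c x z ≤ i
    · by_cases h2 : c y z ≤ k
      · have h3 : c x y ≤ j := by
          apply h.le_of (y := z) (h1.trans hj.1)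
          rw [h.symm]; exact h2.trans hj.2
        simp [h1, h2, h3]
      · simp [h2]
    · simp [h1]
  rw [this]; exact key _ _ _

/-- counting in balls: the smallest ball decides -/
lemma star_ball_aux {c : X → X → Fin (d + 1)} (h : Ultra c) {i j k : Fin (d + 1)}
    (hij : i ≤ j) (hik : i ≤ k) (x y z : X) :
    (∑ u, (if c x u ≤ i then (1 : ℂ) else 0) * (if c y u ≤ j then 1 else 0) *
      (if c z u ≤ k then 1 else 0)) =
    ((univ.filter fun u => c x u ≤ i).card : ℂ) * ((if c x y ≤ j then 1 else 0) *
      (if c x z ≤ k then 1 else 0)) := by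
  have : ∀ u, (if c x u ≤ i then (1 : ℂ) else 0) * (if c y u ≤ j then 1 else 0) *
      (if c z u ≤ k then 1 else 0) = (if c x u ≤ i then (1 : ℂ) else 0) *
        ((if c x y ≤ j then 1 else 0) * (if c x z ≤ k then 1 else 0)) := by
    intro u
    by_cases h1 : c x u ≤ i
    · have e1 : c y u ≤ j ↔ c x y ≤ j := by
        constructor
        · intro h2
          apply h.le_of (y := u) (h1.trans hij)
          rw [h.symm]; exact h2
        · intro h2
          apply h.le_of (y := x) _ (h1.trans hij)
          rw [h.symm]; exact h2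
      have e2 : c z u ≤ k ↔ c x z ≤ k := by
        constructor
        · intro h2
          apply h.le_of (y := u) (h1.trans hik)
          rw [h.symm]; exact h2
        · intro h2
          apply h.le_of (y := x) _ (h1.trans hik)
          rw [h.symm]; exact h2
      simp only [e1, e2, mul_assoc]
    · simp [h1]
  rw [Finset.sum_congr rfl fun u _ => this u, ← Finset.sum_mul]
  congr 1
  rw [Finset.sum_boole]

lemma wstar_le {c : X → X → Fin (d + 1)} (h : Ultra c) : WStar c ≤ WDelta c := by
  rw [WStar, Submodule.span_le]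
  rintro _ ⟨L, hL, M, hM, N, hN, rfl⟩
  rw [boseMesner_eq] at hL hM hN
  refine star_span (WDelta c) _ ?_ L hL M hM N hN
  rintro _ ⟨i, rfl⟩ _ ⟨j, rfl⟩ _ ⟨k, rfl⟩
  have key : ∀ a b e : Fin (d + 1), Delta (ball c a) (ball c b) (ball c e) ∈ WDelta c :=
    fun a b e => Submodule.subset_span ⟨_, ball_mem c a, _, ball_mem c b, _, ball_mem c e, rfl⟩
  by_cases hX : Nonempty X
  swap
  · have : Star (ball c i) (ball c j) (ball c k) = 0 := by
      funext x; exact absurd ⟨x⟩ hX
    rw [this]; exact Submodule.zero_mem _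
  obtain ⟨x0⟩ := hX
  by_cases hi : i ≤ j ∧ i ≤ k
  · have : Star (ball c i) (ball c j) (ball c k) =
        ((univ.filter fun u => c x0 u ≤ i).card : ℂ) •
          Delta (ball c k) (ball c j) (ball c (Fin.last d)) := by
      funext x y z
      simp only [Star, ball, Delta, Pi.smul_apply, smul_eq_mul]
      rw [star_ball_aux h hi.1 hi.2, h.hom i x x0]
      simp only [Fin.le_last, if_true]
      ring
    rw [this]; exact Submodule.smul_mem _ _ (key _ _ _)
  by_cases hj : j ≤ i ∧ j ≤ k
  · have : Star (ball c i) (ball c j) (ball c k) =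
        ((univ.filter fun u => c x0 u ≤ j).card : ℂ) •
          Delta (ball c (Fin.last d)) (ball c i) (ball c k) := by
      funext x y z
      simp only [Star, ball, Delta, Pi.smul_apply, smul_eq_mul]
      have := star_ball_aux h hj.1 hj.2 y x z
      rw [h.hom j y x0, h.symm y x] at this
      simp only [Fin.le_last, if_true]
      rw [one_mul, ← this]
      exact Finset.sum_congr rfl fun u _ => by ring
    rw [this]; exact Submodule.smul_mem _ _ (key _ _ _)
  have hk : k ≤ i ∧ k ≤ j := by
    rcases le_total i j with h1 | h1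
    · have h2 : k ≤ i := by
        by_contra h2
        push Not at h2
        exact hi ⟨h1, h2.le⟩
      exact ⟨h2, h2.trans h1⟩
    · have h2 : k ≤ j := by
        by_contra h2
        push Not at h2
        exact hj ⟨h1, h2.le⟩
      exact ⟨h2.trans h1, h2⟩
  have : Star (ball c i) (ball c j) (ball c k) =
      ((univ.filter fun u => c x0 u ≤ k).card : ℂ) •
        Delta (ball c i) (ball c (Fin.last d)) (ball c j) := by
    funext x y z
    simp only [Star, ball, Delta, Pi.smul_apply, smul_eq_mul]
    have := star_ball_aux h hk.1 hk.2 z x y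
    rw [h.hom k z x0, h.symm z x, h.symm z y] at this
    simp only [Fin.le_last, if_true]
    rw [mul_one, ← this]
    exact Finset.sum_congr rfl fun u _ => by ring
  rw [this]; exact Submodule.smul_mem _ _ (key _ _ _)

lemma star_adj (c : X → X → Fin (d + 1)) (i j k : Fin (d + 1)) (x y z : X) :
    Star (adj c i) (adj c j) (adj c k) x y z =
      ((univ.filter fun u => c x u = i ∧ c y u = j ∧ c z u = k).card : ℂ) := by
  simp only [Star, adj]
  rw [← Finset.sum_boole]
  apply Finset.sum_congr rfl
  intro u _
  by_cases h1 : c x u = i <;> by_cases h2 : c y u = j <;> by_cases h3 : c z u = k <;>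
    simp [h1, h2, h3]

lemma ultra_triple {c : X → X → Fin (d + 1)} (h : Ultra c) (i j k : Fin (d + 1))
    (x y z x' y' z' : X) (h1 : c x y = c x' y') (h2 : c x z = c x' z') (h3 : c y z = c y' z') :
    (univ.filter fun u => c x u = i ∧ c y u = j ∧ c z u = k).card =
      (univ.filter fun u => c x' u = i ∧ c y' u = j ∧ c z' u = k).card := by
  have hm : Star (adj c i) (adj c j) (adj c k) ∈ WDelta c := by
    apply wstar_le h
    exact Submodule.subset_span ⟨_, Submodule.subset_span ⟨i, rfl⟩, _,
      Submodule.subset_span ⟨j, rfl⟩, _, Submodule.subset_span ⟨k, rfl⟩, rfl⟩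
  have := wdelta_const hm h1 h2 h3
  rw [star_adj, star_adj] at this
  exact_mod_cast this

lemma ultra_double {c : X → X → Fin (d + 1)} (h : Ultra c) (i j : Fin (d + 1))
    (x y x' y' : X) (h1 : c x y = c x' y') :
    (univ.filter fun z => c x z = i ∧ c z y = j).card =
      (univ.filter fun z => c x' z = i ∧ c z y' = j).card := by
  have := ultra_triple h i j j x y y x' y' y' h1 h1
    (by rw [(h.diag y y).mpr rfl, (h.diag y' y').mpr rfl])
  simpa only [and_self, h.symm _ y, h.symm _ y'] using this

/-- the scheme of a homogeneous ultrametric colouring -/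
def Ultra.scheme {c : X → X → Fin (d + 1)} (h : Ultra c) (hs : ∀ i, ∃ x y, c x y = i) :
    SymScheme X d where
  c := c
  surj := hs
  diag := h.diag
  symm := h.symm
  regular := fun i j x y x' y' h1 => ultra_double h i j x y x' y' h1

lemma Ultra.exact {c : X → X → Fin (d + 1)} (h : Ultra c) (hs : ∀ i, ∃ x y, c x y = i) :
    (h.scheme hs).ExactlyTriplyRegular :=
  ⟨fun i j k x y z x' y' z' h1 h2 h3 => ultra_triple h i j k x y z x' y' z' h1 h2 h3,
    wstar_le h, wdelta_le h⟩

end Ultra

section Algebra

variable {X : Type} [Fintype X] [DecidableEq X] {d : ℕ}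

/-- the number of points in the ball of radius `i` around `x` -/
def bsize (c : X → X → Fin (d + 1)) (x : X) (i : Fin (d + 1)) : ℕ :=
  (univ.filter fun u => c x u ≤ i).card

lemma ball_mul {c : X → X → Fin (d + 1)} (h : Ultra c) {i j : Fin (d + 1)} (hij : i ≤ j)
    (x0 : X) : ball c i * ball c j = (bsize c x0 i : ℂ) • ball c j := by
  ext x y
  rw [Matrix.mul_apply, Matrix.smul_apply, smul_eq_mul]
  have := star_ball_aux h hij (Fin.le_last i) x y y
  simp only [Fin.le_last, if_true, mul_one] at this
  simp only [ball, bsize]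
  rw [h.hom i x0 x, ← this]
  exact Finset.sum_congr rfl fun u _ => by rw [h.symm u y]

lemma mul_ball {c : X → X → Fin (d + 1)} (h : Ultra c) {i j : Fin (d + 1)} (hij : i ≤ j)
    (x0 : X) : ball c j * ball c i = (bsize c x0 i : ℂ) • ball c j := by
  ext x y
  rw [Matrix.mul_apply, Matrix.smul_apply, smul_eq_mul]
  have := star_ball_aux h hij (Fin.le_last i) y x x
  simp only [Fin.le_last, if_true, mul_one] at this
  simp only [ball, bsize]
  rw [h.hom i x0 y, h.symm x y, ← this]
  exact Finset.sum_congr rfl fun u _ => by rw [h.symm u y, mul_comm]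

lemma bm_mul {c : X → X → Fin (d + 1)} (h : Ultra c) (x0 : X) {f g : Matrix X X ℂ}
    (hf : f ∈ boseMesner c) (hg : g ∈ boseMesner c) :
    f * g ∈ boseMesner c ∧ f * g = g * f := by
  rw [boseMesner_eq] at *
  induction hf using Submodule.span_induction with
  | zero => simp
  | add a b _ _ ha hb =>
    refine ⟨?_, ?_⟩
    · rw [add_mul]; exact Submodule.add_mem _ ha.1 hb.1
    · rw [add_mul, mul_add, ha.2, hb.2]
  | smul r a _ ha =>
    refine ⟨?_, ?_⟩
    · rw [smul_mul_assoc]; exact Submodule.smul_mem _ _ ha.1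
    · rw [smul_mul_assoc, mul_smul_comm, ha.2]
  | mem a ha =>
    obtain ⟨i, rfl⟩ := ha
    induction hg using Submodule.span_induction with
    | zero => simp
    | add a b _ _ ha hb =>
      refine ⟨?_, ?_⟩
      · rw [mul_add]; exact Submodule.add_mem _ ha.1 hb.1
      · rw [add_mul, mul_add, ha.2, hb.2]
    | smul r a _ ha =>
      refine ⟨?_, ?_⟩
      · rw [mul_smul_comm]; exact Submodule.smul_mem _ _ ha.1
      · rw [smul_mul_assoc, mul_smul_comm, ha.2]
    | mem a ha =>
      obtain ⟨j, rfl⟩ := ha
      rcases le_total i j with hij | hij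
      · rw [ball_mul h hij x0, mul_ball h hij x0]
        exact ⟨Submodule.smul_mem _ _ (Submodule.subset_span ⟨j, rfl⟩), rfl⟩
      · rw [ball_mul h hij x0, mul_ball h hij x0]
        exact ⟨Submodule.smul_mem _ _ (Submodule.subset_span ⟨i, rfl⟩), rfl⟩

/-- If a formally self-dual homogeneous ultrametric scheme has a primitive idempotent of trace
`t ≠ |X|⁻¹ J`, then some nondiagonal relation has valency `t`. -/
lemma fsd_valency {c : X → X → Fin (d + 1)} (h : Ultra c) (hs : ∀ i, ∃ x y, c x y = i)
    (hF : (h.scheme hs).FormallySelfDual) (e : Matrix X X ℂ)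
    (he : (h.scheme hs).IsPrimitiveIdempotent e)
    (he0 : e ≠ (Fintype.card X : ℂ)⁻¹ • (fun _ _ => 1 : Matrix X X ℂ)) (x : X) :
    ∃ k : Fin (d + 1), k ≠ 0 ∧
      ((univ.filter fun y => c x y = k).card : ℂ) = Matrix.trace e := by
  obtain ⟨σ, E, P, Q, hinj, hprim, hE0, hA, hE, hPQ⟩ := hF
  subst hPQ
  change ∀ i, adj c (σ i) = ∑ j, P j i • E j at hA
  change ∀ i, E i = (Fintype.card X : ℂ)⁻¹ • ∑ j, P j i • adj c (σ j) at hE
  have hN : (Fintype.card X : ℂ) ≠ 0 := by
    have : 0 < Fintype.card X := Fintype.card_pos_iff.mpr ⟨x⟩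
    exact_mod_cast this.ne'
  have hPE : ∀ i, (h.scheme hs).IsPrimitiveIdempotent (E i) := fun i => (hprim _).mpr ⟨i, rfl⟩
  have hBM : ∀ i, E i ∈ boseMesner c := fun i => (hPE i).1
  -- orthogonality
  have orth : ∀ i j, i ≠ j → E i * E j = 0 := by
    intro i j hij
    have hcomm := (bm_mul h x (hBM i) (hBM j)).2
    have hmem := (bm_mul h x (hBM i) (hBM j)).1
    have hid : (E i * E j) * (E i * E j) = E i * E j := by
      calc (E i * E j) * (E i * E j) = E i * (E j * E i) * E j := by
            simp only [mul_assoc]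
        _ = (E i * E i) * (E j * E j) := by rw [← hcomm]; simp only [mul_assoc]
        _ = E i * E j := by rw [(hPE i).2.1, (hPE j).2.1]
    have h1 := (hPE i).2.2.2 _ hmem hid (by rw [← mul_assoc, (hPE i).2.1])
    have h2 := (hPE j).2.2.2 _ hmem hid (by
      rw [hcomm, ← mul_assoc, (hPE j).2.1])
    rcases h1 with h1 | h1
    · exact h1
    rcases h2 with h2 | h2
    · exact h2
    exact absurd (hinj (h1.symm.trans h2)) hij
  -- first column of `P`
  have hP0 : ∀ j, P j 0 = 1 := by
    intro j
    obtain ⟨a, b, hab⟩ := hs (σ j)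
    have h1 := congrFun (congrFun (hE0.symm.trans (hE 0)) a) b
    simp only [Matrix.smul_apply, smul_eq_mul, Matrix.sum_apply, adj, hab] at h1
    have h2 : (1 : ℂ) = ∑ k, P k 0 * (if σ j = σ k then 1 else 0) :=
      mul_left_cancel₀ (inv_ne_zero hN) h1
    simp only [EmbeddingLike.apply_eq_iff_eq, mul_ite, mul_one, mul_zero,
      Finset.sum_ite_eq, Finset.mem_univ, if_true] at h2
    exact h2.symm
  have hsum : adj c (σ 0) = ∑ j, E j := by
    rw [hA 0]; exact Finset.sum_congr rfl fun j _ => by rw [hP0, one_smul]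
  have hI : adj c 0 = (1 : Matrix X X ℂ) := by
    ext a b
    simp only [adj, Matrix.one_apply, h.diag]
  have hsumE : ∀ k, (∑ j, E j) * E k = E k := by
    intro k
    rw [Finset.sum_mul, Finset.sum_eq_single k]
    · exact (hPE k).2.1
    · intro j _ hj; exact orth j k hj
    · intro hk; exact absurd (Finset.mem_univ k) hk
  have hone : adj c (σ 0) = 1 := by
    have h1 : (1 : Matrix X X ℂ) = ∑ j, P j (σ.symm 0) • E j := by
      rw [← hI, ← hA (σ.symm 0), Equiv.apply_symm_apply]
    calc adj c (σ 0) = (∑ j, E j) * 1 := by rw [mul_one, hsum]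
      _ = (∑ j, E j) * ∑ j, P j (σ.symm 0) • E j := by rw [← h1]
      _ = ∑ j, P j (σ.symm 0) • E j := by
          rw [Finset.mul_sum]
          exact Finset.sum_congr rfl fun k _ => by rw [mul_smul_comm, hsumE]
      _ = 1 := h1.symm
  have hσ0 : σ 0 = 0 := by
    obtain ⟨a, b, hab⟩ := hs (σ 0)
    have h1 := congrFun (congrFun hone a) b
    simp only [adj, hab, if_true, Matrix.one_apply] at h1
    by_cases hxy : a = b
    · rw [← hab]; exact (h.diag a b).mpr hxy
    · rw [if_neg hxy] at h1; exact absurd h1 one_ne_zero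
  obtain ⟨i, hi⟩ := (hprim e).mp he
  have hi0 : i ≠ 0 := by
    rintro rfl
    exact he0 (hi.symm.trans hE0)
  refine ⟨σ i, ?_, ?_⟩
  · intro h0
    exact hi0 (σ.injective (h0.trans hσ0.symm))
  -- trace
  have htr : Matrix.trace e = P 0 i := by
    rw [← hi, hE i, Matrix.trace_smul, Matrix.trace_sum]
    have : ∀ j, Matrix.trace (P j i • adj c (σ j)) =
        if j = 0 then P 0 i * (Fintype.card X : ℂ) else 0 := by
      intro j
      rw [Matrix.trace_smul, smul_eq_mul]
      by_cases hj : j = 0
      · subst hj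
        rw [if_pos rfl, hσ0, hI, Matrix.trace_one]
      · rw [if_neg hj]
        have : Matrix.trace (adj c (σ j)) = 0 := by
          rw [Matrix.trace]
          apply Finset.sum_eq_zero
          intro a _
          simp only [Matrix.diag_apply, adj]
          rw [if_neg]
          rw [(h.diag a a).mpr rfl]
          intro h0
          exact hj (σ.injective (h0.symm.trans hσ0.symm))
        rw [this, mul_zero]
    rw [Finset.sum_congr rfl fun j _ => this j, Finset.sum_ite_eq' Finset.univ 0,
      if_pos (Finset.mem_univ _), smul_eq_mul]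
    field_simp
  -- valency
  rw [htr]
  have hmulJ : ∀ j, ∑ b, E j x b = if j = 0 then 1 else 0 := by
    intro j
    have h1 : (E j * E 0) x x = (Fintype.card X : ℂ)⁻¹ * ∑ b, E j x b := by
      rw [Matrix.mul_apply, Finset.mul_sum]
      apply Finset.sum_congr rfl
      intro b _
      have h3 : E 0 b x = (Fintype.card X : ℂ)⁻¹ := by
        rw [hE0]; simp
      rw [h3, mul_comm]
    by_cases hj : j = 0
    · subst hj
      rw [(hPE 0).2.1] at h1
      rw [if_pos rfl]
      have h2 : E 0 x x = (Fintype.card X : ℂ)⁻¹ := by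
        rw [hE0]; simp
      rw [h2] at h1
      have := mul_left_cancel₀ (inv_ne_zero hN) ((mul_one _).trans h1)
      exact this.symm
    · rw [if_neg hj]
      rw [orth j 0 hj] at h1
      simp only [Matrix.zero_apply] at h1
      rcases mul_eq_zero.mp h1.symm with h2 | h2
      · exact absurd h2 (inv_ne_zero hN)
      · exact h2
  have h1 : ∑ b, adj c (σ i) x b = P 0 i := by
    rw [hA i]
    simp only [Matrix.sum_apply, Matrix.smul_apply, smul_eq_mul]
    rw [Finset.sum_comm]
    rw [Finset.sum_congr rfl fun j _ => by rw [← Finset.mul_sum, hmulJ j]]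
    simp
  rw [← h1]
  simp only [adj, Finset.sum_boole]

end Algebra

section Wreath

variable {n : ℕ} (s : Fin (n + 2) → ℕ)

/-- `lev x y` is `0` if `x = y` and `j + 1` if `j` is the last coordinate in which the tuples
`x` and `y` differ. -/
def lev (x y : (i : Fin (n + 2)) → Fin (s i)) : ℕ :=
  univ.sup fun i => if x i = y i then 0 else i.val + 1

lemma lev_le_iff (x y : (i : Fin (n + 2)) → Fin (s i)) (m : ℕ) :
    lev s x y ≤ m ↔ ∀ i : Fin (n + 2), m ≤ i.val → x i = y i := by
  rw [lev, Finset.sup_le_iff]
  constructor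
  · intro h i hi
    have := h i (Finset.mem_univ i)
    by_contra hne
    rw [if_neg hne] at this
    omega
  · intro h i _
    by_cases hi : x i = y i
    · rw [if_pos hi]; exact Nat.zero_le _
    · rw [if_neg hi]
      by_contra hlt
      exact hi (h i (by omega))

lemma lev_lt (x y : (i : Fin (n + 2)) → Fin (s i)) : lev s x y < n + 2 + 1 := by
  rw [Nat.lt_succ_iff, lev_le_iff]
  intro i hi
  exact absurd i.isLt (by omega)

/-- The colouring of the iterated wreath product: the colour of `(x, y)` is `0` if `x = y` and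
`j + 1` if `j` is the last coordinate in which `x` and `y` differ. -/
def col (x y : (i : Fin (n + 2)) → Fin (s i)) : Fin (n + 2 + 1) := ⟨lev s x y, lev_lt s x y⟩

lemma col_le_iff (x y : (i : Fin (n + 2)) → Fin (s i)) (m : Fin (n + 2 + 1)) :
    col s x y ≤ m ↔ ∀ i : Fin (n + 2), m.val ≤ i.val → x i = y i := by
  rw [← lev_le_iff, Fin.le_def]
  rfl

lemma ball_card (x : (i : Fin (n + 2)) → Fin (s i)) (m : Fin (n + 2 + 1)) :
    (univ.filter fun y => col s x y ≤ m).card =
      ∏ i : Fin (n + 2), if i.val < m.val then s i else 1 := by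
  have : (univ.filter fun y => col s x y ≤ m) =
      Fintype.piFinset fun i : Fin (n + 2) => if i.val < m.val then univ else {x i} := by
    ext y
    simp only [Finset.mem_filter, Finset.mem_univ, true_and, Fintype.mem_piFinset, col_le_iff]
    apply forall_congr'
    intro i
    by_cases hi : i.val < m.val
    · simp only [hi, if_true, Finset.mem_univ, iff_true]
      intro h; omega
    · rw [if_neg hi]
      simp only [Finset.mem_singleton]
      constructor
      · intro h; exact (h (by omega)).symm
      · intro h _; exact h.symm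
  rw [this, Fintype.card_piFinset]
  apply Finset.prod_congr rfl
  intro i _
  by_cases hi : i.val < m.val
  · simp [hi]
  · simp [hi]

lemma col_ultra : Ultra (col s) where
  diag := by
    intro x y
    rw [← Fin.le_zero_iff, col_le_iff]
    constructor
    · intro h; funext i; exact h i (Nat.zero_le _)
    · intro h i _; rw [h]
  symm := by
    intro x y
    apply le_antisymm
    · rw [col_le_iff]; intro i hi; exact (((col_le_iff s y x _).mp le_rfl) i hi).symm
    · rw [col_le_iff]; intro i hi; exact (((col_le_iff s x y _).mp le_rfl) i hi).symm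
  tri := by
    intro x y z
    rw [col_le_iff]
    intro i hi
    have h1 := (col_le_iff s x y _).mp (le_max_left (col s x y) (col s y z)) i hi
    have h2 := (col_le_iff s y z _).mp (le_max_right (col s x y) (col s y z)) i hi
    exact h1.trans h2
  hom := by
    intro i x x'
    rw [ball_card, ball_card]

/-- changing coordinate `j` (and possibly earlier coordinates) gives colour `j + 1` -/
lemma col_eq_succ {x y : (i : Fin (n + 2)) → Fin (s i)} {j : Fin (n + 2)} (hj : x j ≠ y j)
    (h : ∀ i, j < i → x i = y i) : col s x y = j.succ := by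
  apply le_antisymm
  · rw [col_le_iff]
    intro i hi
    apply h
    rw [Fin.val_succ] at hi
    exact Fin.lt_def.mpr (by omega)
  · by_contra hlt
    push Not at hlt
    have h1 : col s x y ≤ j.castSucc := Fin.le_castSucc_iff.mpr hlt
    exact hj ((col_le_iff s x y _).mp h1 j (by simp))

lemma exists_ne_fin {m : ℕ} (hm : 2 ≤ m) (a : Fin m) : ∃ b : Fin m, b ≠ a := by
  have : Nontrivial (Fin m) := Fin.nontrivial_iff_two_le.mpr hm
  exact exists_ne a

lemma col_surj (hs : ∀ i, 2 ≤ s i) (k : Fin (n + 2 + 1)) :
    ∃ x y, col s x y = k := by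
  let x : (i : Fin (n + 2)) → Fin (s i) := fun i => ⟨0, by have := hs i; omega⟩
  induction k using Fin.cases with
  | zero => exact ⟨x, x, ((col_ultra s).diag x x).mpr rfl⟩
  | succ j =>
    obtain ⟨b, hb⟩ := exists_ne_fin (hs j) (x j)
    refine ⟨x, Function.update x j b, col_eq_succ s ?_ ?_⟩
    · rw [Function.update_self]; exact hb.symm
    · intro i hi; rw [Function.update_of_ne hi.ne']

/-- The iterated wreath product of the schemes of the complete graphs on `s 0, …, s (n+1)`
points: the points are the tuples `x` with `x i ∈ {0, …, s i - 1}`; a pair `(x, y)` with `x ≠ y`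
lies in the relation `j + 1`, where `j` is the last coordinate in which `x` and `y` differ. -/
def wreath (hs : ∀ i, 2 ≤ s i) : SymScheme ((i : Fin (n + 2)) → Fin (s i)) (n + 2) :=
  (col_ultra s).scheme (col_surj s hs)

lemma valency_ge (hs : ∀ i, 2 ≤ s i) (x : (i : Fin (n + 2)) → Fin (s i))
    (k : Fin (n + 2 + 1)) (hk : k ≠ 0) :
    s 0 - 1 ≤ (univ.filter fun y => col s x y = k).card := by
  obtain ⟨j, rfl⟩ := Fin.exists_succ_eq.mpr hk
  obtain ⟨b, hb⟩ := exists_ne_fin (hs j) (x j)
  have hcard : (univ.filter fun a : Fin (s 0) => a ≠ x 0).card = s 0 - 1 := by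
    rw [Finset.filter_ne', Finset.card_erase_of_mem (Finset.mem_univ _), Finset.card_univ,
      Fintype.card_fin]
  rw [← hcard]
  apply Finset.card_le_card_of_injOn
    (fun a => Function.update (Function.update x j b) 0 a)
  · intro a ha
    simp only [Finset.coe_filter, Finset.mem_univ, true_and, Set.mem_ofPred_eq] at ha ⊢
    apply col_eq_succ
    · by_cases hj : j = 0
      · subst hj
        rw [Function.update_self]; exact ha.symm
      · rw [Function.update_of_ne hj, Function.update_self]; exact hb.symm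
    · intro i hi
      have h0 : i ≠ 0 := by
        rintro rfl
        exact absurd hi (Fin.not_lt_zero j)
      rw [Function.update_of_ne h0, Function.update_of_ne hi.ne']
  · intro a _ a' _ haa
    have := congrFun haa 0
    simpa using this

/-- the ball matrix of radius `n + 1` (equality of the last coordinates) -/
lemma bsize_last (x : (i : Fin (n + 2)) → Fin (s i)) :
    bsize (col s) x (Fin.last (n + 2)) = Fintype.card ((i : Fin (n + 2)) → Fin (s i)) := by
  rw [bsize]
  simp [Fin.le_last]

lemma bsize_mul (x : (i : Fin (n + 2)) → Fin (s i)) :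
    bsize (col s) x (Fin.last (n + 1)).castSucc * s (Fin.last (n + 1)) =
      Fintype.card ((i : Fin (n + 2)) → Fin (s i)) := by
  rw [bsize, ball_card, Fintype.card_pi]
  rw [Fin.prod_univ_castSucc, Fin.prod_univ_castSucc (fun i : Fin (n + 2) => Fintype.card (Fin (s i)))]
  have h1 : ∀ i : Fin (n + 1), (i.castSucc : Fin (n + 2)).val < n + 1 := fun i => by
    simpa using i.isLt
  simp only [Fin.val_castSucc, Fin.val_last, lt_irrefl, if_false, mul_one, Fintype.card_fin]
  congr 1
  apply Finset.prod_congr rfl
  intro i _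
  rw [if_pos i.isLt]

/-- the primitive idempotent of trace `s (last) - 1` -/
noncomputable def topIdem : Matrix ((i : Fin (n + 2)) → Fin (s i)) ((i : Fin (n + 2)) → Fin (s i)) ℂ :=
  ((Fintype.card ((i : Fin (n + 2)) → Fin (s i)) : ℂ)⁻¹) •
    ((s (Fin.last (n + 1)) : ℂ) • ball (col s) (Fin.last (n + 1)).castSucc -
      ball (col s) (Fin.last (n + 2)))

lemma topIdem_mem : topIdem s ∈ boseMesner (col s) :=
  Submodule.smul_mem _ _ (Submodule.sub_mem _ (Submodule.smul_mem _ _ (ball_mem _ _))
    (ball_mem _ _))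

/-- every element of the Bose-Mesner algebra acts on `topIdem` by a scalar -/
lemma topIdem_mul (x : (i : Fin (n + 2)) → Fin (s i))
    {f : Matrix ((i : Fin (n + 2)) → Fin (s i)) ((i : Fin (n + 2)) → Fin (s i)) ℂ}
    (hf : f ∈ boseMesner (col s)) : ∃ μ : ℂ, topIdem s * f = μ • topIdem s := by
  rw [boseMesner_eq] at hf
  induction hf using Submodule.span_induction with
  | zero => exact ⟨0, by simp⟩
  | add a b _ _ ha hb =>
    obtain ⟨u, hu⟩ := ha
    obtain ⟨v, hv⟩ := hb
    exact ⟨u + v, by rw [mul_add, hu, hv, add_smul]⟩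
  | smul r a _ ha =>
    obtain ⟨u, hu⟩ := ha
    exact ⟨r * u, by rw [mul_smul_comm, hu, smul_smul]⟩
  | mem a ha =>
    obtain ⟨i, rfl⟩ := ha
    rcases Fin.eq_castSucc_or_eq_last i with ⟨j, rfl⟩ | rfl
    · have h1 : j.castSucc ≤ (Fin.last (n + 1)).castSucc :=
        Fin.castSucc_le_castSucc_iff.mpr (Fin.le_last j)
      refine ⟨(bsize (col s) x j.castSucc : ℂ), ?_⟩
      rw [topIdem, smul_mul_assoc, sub_mul, smul_mul_assoc, mul_ball (col_ultra s) h1 x,
        mul_ball (col_ultra s) (Fin.le_last _) x]
      rw [smul_comm (s (Fin.last (n + 1)) : ℂ), ← smul_sub, smul_comm]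
    · refine ⟨0, ?_⟩
      rw [topIdem, smul_mul_assoc, sub_mul, smul_mul_assoc,
        ball_mul (col_ultra s) (Fin.le_last _) x, mul_ball (col_ultra s) le_rfl x, smul_smul,
        ← sub_smul, bsize_last, ← bsize_mul s x]
      push_cast
      rw [mul_comm (s (Fin.last (n + 1)) : ℂ), sub_self, zero_smul, smul_zero, zero_smul]

lemma topIdem_sq (x : (i : Fin (n + 2)) → Fin (s i)) : topIdem s * topIdem s = topIdem s := by
  have hN : (Fintype.card ((i : Fin (n + 2)) → Fin (s i)) : ℂ) ≠ 0 := by
    have : 0 < Fintype.card ((i : Fin (n + 2)) → Fin (s i)) := Fintype.card_pos_iff.mpr ⟨x⟩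
    exact_mod_cast this.ne'
  have hc := bsize_mul s x
  have h1 : topIdem s * ball (col s) (Fin.last (n + 1)).castSucc =
      (bsize (col s) x (Fin.last (n + 1)).castSucc : ℂ) • topIdem s := by
    rw [topIdem, smul_mul_assoc, sub_mul, smul_mul_assoc, mul_ball (col_ultra s) le_rfl x,
      mul_ball (col_ultra s) (Fin.le_last _) x]
    rw [smul_comm (s (Fin.last (n + 1)) : ℂ), ← smul_sub, smul_comm]
  have h2 : topIdem s * ball (col s) (Fin.last (n + 2)) = 0 := by
    rw [topIdem, smul_mul_assoc, sub_mul, smul_mul_assoc,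
      ball_mul (col_ultra s) (Fin.le_last _) x, mul_ball (col_ultra s) le_rfl x, smul_smul,
      ← sub_smul, bsize_last, ← bsize_mul s x]
    push_cast
    rw [mul_comm (s (Fin.last (n + 1)) : ℂ), sub_self, zero_smul, smul_zero]
  conv_lhs => rw [show topIdem s * topIdem s = topIdem s *
    (((Fintype.card ((i : Fin (n + 2)) → Fin (s i)) : ℂ)⁻¹) •
    ((s (Fin.last (n + 1)) : ℂ) • ball (col s) (Fin.last (n + 1)).castSucc -
      ball (col s) (Fin.last (n + 2)))) from rfl]
  rw [mul_smul_comm, mul_sub, mul_smul_comm, h1, h2, sub_zero, smul_smul, smul_smul]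
  have h3 : (Fintype.card ((i : Fin (n + 2)) → Fin (s i)) : ℂ)⁻¹ * ((s (Fin.last (n + 1)) : ℂ) *
      (bsize (col s) x (Fin.last (n + 1)).castSucc : ℂ)) = 1 := by
    rw [mul_comm (s (Fin.last (n + 1)) : ℂ)]
    have : (bsize (col s) x (Fin.last (n + 1)).castSucc : ℂ) * (s (Fin.last (n + 1)) : ℂ) =
        (Fintype.card ((i : Fin (n + 2)) → Fin (s i)) : ℂ) := by exact_mod_cast hc
    rw [this, inv_mul_cancel₀ hN]
  rw [mul_assoc, h3, one_smul]

lemma topIdem_apply (x y : (i : Fin (n + 2)) → Fin (s i)) :
    topIdem s x y = ((Fintype.card ((i : Fin (n + 2)) → Fin (s i)) : ℂ)⁻¹) *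
      ((s (Fin.last (n + 1)) : ℂ) * (if x (Fin.last (n + 1)) = y (Fin.last (n + 1)) then 1 else 0)
        - 1) := by
  rw [topIdem]
  simp only [Matrix.smul_apply, Matrix.sub_apply, smul_eq_mul, ball_last]
  congr 3
  simp only [ball]
  have : col s x y ≤ (Fin.last (n + 1)).castSucc ↔
      x (Fin.last (n + 1)) = y (Fin.last (n + 1)) := by
    rw [col_le_iff]
    constructor
    · intro h; exact h _ (by simp)
    · intro h i hi
      have : i = Fin.last (n + 1) := by
        apply Fin.ext
        have := i.isLt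
        simp only [Fin.val_castSucc, Fin.val_last] at hi
        simp only [Fin.val_last]
        omega
      rw [this]; exact h
  simp only [this]

lemma topIdem_trace (x : (i : Fin (n + 2)) → Fin (s i)) :
    Matrix.trace (topIdem s) = (s (Fin.last (n + 1)) : ℂ) - 1 := by
  have hN : (Fintype.card ((i : Fin (n + 2)) → Fin (s i)) : ℂ) ≠ 0 := by
    have : 0 < Fintype.card ((i : Fin (n + 2)) → Fin (s i)) := Fintype.card_pos_iff.mpr ⟨x⟩
    exact_mod_cast this.ne'
  rw [Matrix.trace]
  simp only [Matrix.diag_apply, topIdem_apply, if_true, mul_one]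
  rw [Finset.sum_const, Finset.card_univ, nsmul_eq_mul, ← mul_assoc, mul_inv_cancel₀ hN, one_mul]

lemma wreath_not_fsd (hs : ∀ i, 2 ≤ s i) (h : s (Fin.last (n + 1)) < s 0) :
    ¬ (wreath s hs).FormallySelfDual := by
  intro hF
  let x : (i : Fin (n + 2)) → Fin (s i) := fun i => ⟨0, by have := hs i; omega⟩
  have hN : (Fintype.card ((i : Fin (n + 2)) → Fin (s i)) : ℂ) ≠ 0 := by
    have : 0 < Fintype.card ((i : Fin (n + 2)) → Fin (s i)) := Fintype.card_pos_iff.mpr ⟨x⟩
    exact_mod_cast this.ne'
  have hsl := hs (Fin.last (n + 1))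
  have hxx : topIdem s x x ≠ 0 := by
    rw [topIdem_apply, if_pos rfl, mul_one]
    apply mul_ne_zero (inv_ne_zero hN)
    rw [sub_ne_zero]
    have : s (Fin.last (n + 1)) ≠ 1 := by omega
    exact_mod_cast this
  have hprim : (wreath s hs).IsPrimitiveIdempotent (topIdem s) := by
    refine ⟨topIdem_mem s, topIdem_sq s x, ?_, ?_⟩
    · intro h0
      apply hxx
      rw [h0]; rfl
    · intro f hf hff hef
      obtain ⟨μ, hμ⟩ := topIdem_mul s x hf
      have hf' : f = μ • topIdem s := hef.symm.trans hμ
      rw [hf'] at hff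
      rw [smul_mul_smul_comm, topIdem_sq s x] at hff
      have h1 := congrFun (congrFun hff x) x
      simp only [Matrix.smul_apply, smul_eq_mul] at h1
      have h2 : μ * μ = μ := mul_right_cancel₀ hxx h1
      have h3 : μ * (μ - 1) = 0 := by rw [mul_sub, h2, mul_one, sub_self]
      rcases mul_eq_zero.mp h3 with h4 | h4
      · left; rw [hf', h4, zero_smul]
      · right; rw [hf', sub_eq_zero.mp h4, one_smul]
  have hne : topIdem s ≠ (Fintype.card ((i : Fin (n + 2)) → Fin (s i)) : ℂ)⁻¹ •
      (fun _ _ => 1 : Matrix ((i : Fin (n + 2)) → Fin (s i)) ((i : Fin (n + 2)) → Fin (s i)) ℂ) := by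
    intro h0
    obtain ⟨b, hb⟩ := exists_ne_fin hsl (x (Fin.last (n + 1)))
    have h1 := congrFun (congrFun h0 x) (Function.update x (Fin.last (n + 1)) b)
    rw [topIdem_apply, Function.update_self, if_neg hb.symm, mul_zero, zero_sub] at h1
    change _ = (Fintype.card ((i : Fin (n + 2)) → Fin (s i)) : ℂ)⁻¹ * 1 at h1
    have h2 : (-1 : ℂ) = 1 := mul_left_cancel₀ (inv_ne_zero hN) h1
    norm_num at h2
  obtain ⟨k, hk, hval⟩ := fsd_valency (col_ultra s) (col_surj s hs) hF _ hprim hne x
  rw [topIdem_trace s x] at hval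
  have h1 := valency_ge s hs x k hk
  have h2 : (univ.filter fun y => col s x y = k).card + 1 = s (Fin.last (n + 1)) := by
    have : ((univ.filter fun y => col s x y = k).card : ℂ) + 1 = (s (Fin.last (n + 1)) : ℂ) := by
      rw [hval]; ring
    exact_mod_cast this
  omega

end Wreath

/-- For every `d = n + 2 ≥ 2` and all sizes `s 0, …, s (d-1) ≥ 2`, the iterated wreath product of
the complete graph schemes `K_{s 0}, …, K_{s (d-1)}` is an exactly triply regular symmetric
association scheme with `d` classes, and it is not formally self-dual if `s (d-1) < s 0`. -/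
theorem result (n : ℕ) (s : Fin (n + 2) → ℕ) (hs : ∀ i, 2 ≤ s i) :
    (wreath s hs).ExactlyTriplyRegular ∧
      (s (Fin.last (n + 1)) < s 0 → ¬ (wreath s hs).FormallySelfDual) :=
  ⟨(col_ultra s).exact (col_surj s hs), wreath_not_fsd s hs⟩


end Pool.Agent.Results.MP_44674b_co.WreathExact
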